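import Pool.Agent.H74.Des.Extend

/-!
Designs for the pigeonhole principle over every commutative ring.
-/

namespace Pool.Agent.H74.Des

open Function

variable {F H ι : Type*} [CommRing F] [Fintype H] [DecidableEq H] [Fintype ι] [DecidableEq ι]

omit [DecidableEq H] in
/-- Summing over all maps vanishes if summing over one coordinate always does. -/
theorem sum_eq_zero_of_update (G : (ι → H) → F) (i : ι)
    (hG : ∀ z, ∑ h, G (update z i h) = 0) : ∑ z, G z = 0 := by
  rcases isEmpty_or_nonempty H with hE | ⟨⟨c⟩⟩
  · have : IsEmpty (ι → H) := ⟨fun z => hE.elim (z i)⟩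
    simp
  · let e := Equiv.funSplitAt i H
    rw [← e.symm.sum_comp, Fintype.sum_prod_type_right]
    refine Finset.sum_eq_zero fun g _ => ?_
    rw [← hG (e.symm (c, g))]
    refine Finset.sum_congr rfl fun h _ => ?_
    congr 1
    funext j
    by_cases hj : j = i
    · subst hj
      simp [e, Equiv.funSplitAt, Equiv.piSplitAt]
    · simp [e, Equiv.funSplitAt, Equiv.piSplitAt, hj]

/-- The marginal of `W` on the coordinates in `T`. -/
def marg (W : (ι → H) → F) (T : Finset ι) (y : ι → H) : F :=
  ∑ z, if (∀ i ∈ T, z i = y i) then W z else 0

theorem marg_congr (W : (ι → H) → F) (T : Finset ι) (y y' : ι → H) (h : ∀ i ∈ T, y i = y' i) :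
    marg W T y = marg W T y' := by
  unfold marg
  refine Finset.sum_congr rfl fun z _ => ?_
  have : (∀ i ∈ T, z i = y i) ↔ (∀ i ∈ T, z i = y' i) :=
    ⟨fun h' i hi => (h' i hi).trans (h i hi), fun h' i hi => (h' i hi).trans (h i hi).symm⟩
  simp only [this]

/-- The extension of a map on `T` by a constant. -/
def ext0 (c : H) (T : Finset ι) (z : T → H) (i : ι) : H := if h : i ∈ T then z ⟨i, h⟩ else c

omit [Fintype H] [DecidableEq H] [Fintype ι] in
theorem ext0_mem (c : H) (T : Finset ι) (z : T → H) (i : T) : ext0 c T z i = z i := by
  simp [ext0]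

theorem sum_marg_update (W : (ι → H) → F) (T : Finset ι) (y : ι → H) (i : ι) (hi : i ∈ T) :
    ∑ h, marg W T (update y i h) = marg W (T.erase i) y := by
  unfold marg
  rw [Finset.sum_comm]
  refine Finset.sum_congr rfl fun z _ => ?_
  rw [Finset.sum_eq_single (z i)]
  · have : (∀ j ∈ T, z j = update y i (z i) j) ↔ ∀ j ∈ T.erase i, z j = y j := by
      constructor
      · intro h j hj
        have := h j (Finset.mem_of_mem_erase hj)
        rwa [update_of_ne (Finset.ne_of_mem_erase hj)] at this
      · intro h j hj
        by_cases hji : j = i
        · subst hji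
          simp
        · rw [update_of_ne hji]
          exact h j (Finset.mem_erase.2 ⟨hji, hj⟩)
    simp only [this]
  · intro h _ hh
    rw [if_neg]
    intro hcon
    have := hcon i hi
    rw [update_self] at this
    exact hh this.symm
  · simp

/-- The measure `W` is a design of degree `D`: its marginals on at most `D` coordinates live on
the injective maps. -/
def Good (D : ℕ) (W : (ι → H) → F) : Prop :=
  ∀ T : Finset ι, T.card ≤ D → ∀ y, marg W T y ≠ 0 → Set.InjOn y T

theorem good_zero (W : (ι → H) → F) : Good 0 W := by
  intro T hT y _
  have : T = ∅ := Finset.card_eq_zero.1 (Nat.le_zero.1 hT)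
  subst this
  simp

/-- The correction attached to `T`. -/
noncomputable def corr (c : H) (T : Finset ι) (N : (T → H) → F) (y : ι → H) : F :=
  open Classical in if (∀ i, i ∉ T → y i = c) then N (fun i => y i) else 0

theorem marg_corr_of_not_subset (c : H) (T T0 : Finset ι) (N : (T → H) → F) (hN : MargZero N)
    (hT : ¬ T ⊆ T0) (y : ι → H) : marg (corr c T N) T0 y = 0 := by
  classical
  obtain ⟨i, hiT, hiT0⟩ := Finset.not_subset.1 hT
  unfold marg
  apply sum_eq_zero_of_update _ i
  intro z
  have h1 : ∀ h, (∀ j ∈ T0, update z i h j = y j) ↔ (∀ j ∈ T0, z j = y j) := by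
    intro h
    refine forall₂_congr fun j hj => ?_
    rw [update_of_ne (show j ≠ i from fun e => hiT0 (e ▸ hj))]
  simp only [h1]
  by_cases h2 : ∀ j ∈ T0, z j = y j
  · simp only [if_pos h2]
    unfold corr
    have h3 : ∀ h, (∀ j, j ∉ T → update z i h j = c) ↔ (∀ j, j ∉ T → z j = c) := by
      intro h
      refine forall₂_congr fun j hj => ?_
      rw [update_of_ne (show j ≠ i from fun e => hj (e ▸ hiT))]
    simp only [h3]
    by_cases h4 : ∀ j, j ∉ T → z j = c
    · simp only [if_pos h4]
      have h5 : ∀ h, (fun j : T => update z i h j) = update (fun j : T => z j) ⟨i, hiT⟩ h := by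
        intro h
        funext j
        by_cases hj : j = ⟨i, hiT⟩
        · subst hj
          simp
        · rw [update_of_ne hj, update_of_ne (fun e => hj (Subtype.ext e))]
      simp only [h5]
      exact hN _ _
    · simp [if_neg h4]
  · simp [if_neg h2]

theorem marg_corr_self (c : H) (T : Finset ι) (N : (T → H) → F) (y : ι → H) :
    marg (corr c T N) T y = N (fun i => y i) := by
  classical
  unfold marg
  rw [Finset.sum_eq_single (ext0 c T fun i => y i)]
  · rw [if_pos]
    · unfold corr
      rw [if_pos]
      · congr 1
        funext i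
        exact ext0_mem c T _ i
      · intro i hi
        simp [ext0, hi]
    · intro i hi
      exact ext0_mem c T _ ⟨i, hi⟩
  · intro z _ hz
    by_cases h1 : ∀ i ∈ T, z i = y i
    · rw [if_pos h1]
      unfold corr
      rw [if_neg]
      intro h2
      apply hz
      funext i
      by_cases hi : i ∈ T
      · simp [ext0, hi, h1 i hi]
      · simp [ext0, hi, h2 i hi]
    · rw [if_neg h1]
  · simp

/-- Designs of degree `D` exist if there are at least `2 D - 1` values. -/
theorem exists_good (c : H) : ∀ D : ℕ, 2 * D ≤ Fintype.card H + 1 →
    ∃ W : (ι → H) → F, ∑ y, W y = 1 ∧ Good D W := by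
  classical
  intro D
  induction D with
  | zero =>
    intro _
    refine ⟨fun y => if y = fun _ => c then 1 else 0, ?_, good_zero _⟩
    simp
  | succ D ih =>
    intro hD
    obtain ⟨W, hW1, hW2⟩ := ih (by omega)
    have hex : ∀ T : Finset ι, ∃ N : (T → H) → F, MargZero N ∧
        (T.card = D + 1 → Lives Finset.univ fun z => marg W T (ext0 c T z) + N z) := by
      intro T
      by_cases hT : T.card = D + 1
      · obtain ⟨N, h1, h2⟩ := extend (Finset.univ : Finset H) (fun z => marg W T (ext0 c T z))
          (by rw [Fintype.card_coe, hT, Finset.card_univ]; omega) (by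
            intro i z hz
            have h3 : ∀ h, marg W T (ext0 c T (update z i h)) =
                marg W T (update (ext0 c T z) i h) := by
              intro h
              apply marg_congr
              intro j hj
              by_cases hji : (⟨j, hj⟩ : T) = i
              · subst hji
                simp [ext0, hj]
              · rw [update_of_ne (fun e => hji (Subtype.ext e))]
                simp [ext0, hj, update_of_ne hji]
            simp only [h3] at hz
            rw [sum_marg_update W T _ i i.2] at hz
            have h4 := hW2 (T.erase i) (by rw [Finset.card_erase_of_mem i.2]; omega) _ hz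
            refine ⟨?_, fun j _ => Finset.mem_univ _⟩
            intro j k hj hk hjk
            apply Subtype.ext
            apply h4
            · simp only [Finset.coe_erase, Set.mem_sdiff, Finset.mem_coe, j.2, true_and,
                Set.mem_singleton_iff]
              exact fun e => hj (Subtype.ext e)
            · simp only [Finset.coe_erase, Set.mem_sdiff, Finset.mem_coe, k.2, true_and,
                Set.mem_singleton_iff]
              exact fun e => hk (Subtype.ext e)
            · rw [ext0_mem, ext0_mem, hjk])
        exact ⟨N, h1, fun _ => h2⟩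
      · exact ⟨0, fun i z => by simp, fun h => absurd h hT⟩
    choose N hN1 hN2 using hex
    refine ⟨fun y => W y + ∑ T ∈ Finset.powersetCard (D + 1) Finset.univ, corr c T (N T) y, ?_, ?_⟩
    · rw [Finset.sum_add_distrib, hW1, Finset.sum_comm, Finset.sum_eq_zero, add_zero]
      intro T hT
      have h1 := marg_corr_of_not_subset c T ∅ (N T) (hN1 T) (by
        intro h
        have h2 := (Finset.mem_powersetCard.1 hT).2
        rw [Finset.subset_empty.1 h] at h2
        simp at h2)
      have h2 := h1 (fun _ => c)
      simpa [marg] using h2
    · intro T0 hT0 y hy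
      have h1 : marg (fun y => W y + ∑ T ∈ Finset.powersetCard (D + 1) Finset.univ,
          corr c T (N T) y) T0 y = marg W T0 y +
          ∑ T ∈ Finset.powersetCard (D + 1) Finset.univ, marg (corr c T (N T)) T0 y := by
        unfold marg
        rw [Finset.sum_comm, ← Finset.sum_add_distrib]
        refine Finset.sum_congr rfl fun z _ => ?_
        by_cases h2 : ∀ i ∈ T0, z i = y i
        · simp [if_pos h2]
        · simp [if_neg h2]
      rw [h1] at hy
      by_cases h2 : T0.card = D + 1
      · have h3 : ∑ T ∈ Finset.powersetCard (D + 1) Finset.univ, marg (corr c T (N T)) T0 y =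
            N T0 (fun i => y i) := by
          rw [Finset.sum_eq_single T0]
          · exact marg_corr_self c T0 (N T0) y
          · intro T hT hne
            apply marg_corr_of_not_subset c T T0 (N T) (hN1 T)
            intro hsub
            apply hne
            apply Finset.eq_of_subset_of_card_le hsub
            rw [h2, (Finset.mem_powersetCard.1 hT).2]
          · intro h
            exact absurd (Finset.mem_powersetCard.2 ⟨Finset.subset_univ _, h2⟩) h
        rw [h3] at hy
        have h4 : marg W T0 y = marg W T0 (ext0 c T0 fun i => y i) := by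
          apply marg_congr
          intro i hi
          exact (ext0_mem c T0 (fun i => y i) ⟨i, hi⟩).symm
        rw [h4] at hy
        have h5 := (hN2 T0 h2 _ hy).1
        intro a ha b hb hab
        have := h5 (a₁ := ⟨a, ha⟩) (a₂ := ⟨b, hb⟩) hab
        exact congrArg Subtype.val this
      · have h3 : ∑ T ∈ Finset.powersetCard (D + 1) Finset.univ, marg (corr c T (N T)) T0 y = 0 := by
          refine Finset.sum_eq_zero fun T hT => ?_
          apply marg_corr_of_not_subset c T T0 (N T) (hN1 T)
          intro hsub
          have := Finset.card_le_card hsub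
          have h4 := (Finset.mem_powersetCard.1 hT).2
          omega
        rw [h3, add_zero] at hy
        exact hW2 T0 (by omega) y hy

/-- **Designs for the pigeonhole principle.** Over every commutative ring there are signed
measures `w` of total mass `1` on the maps from `ι` to `H` such that a function which depends only
on the coordinates in a set `T` of at most `D ≤ (|H| + 1) / 2` coordinates and vanishes unless two
fixed coordinates in `T` agree has integral `0`. -/
theorem exists_design (D : ℕ) (hD1 : 1 ≤ D) (hD : 2 * D ≤ Fintype.card H + 1) :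
    ∃ w : (ι → H) → F, ∑ y, w y = 1 ∧
      ∀ (T : Finset ι), T.card ≤ D → ∀ a ∈ T, ∀ b ∈ T, a ≠ b → ∀ f : (ι → H) → F,
        (∀ y z, (∀ i ∈ T, y i = z i) → f y = f z) → (∀ y, f y ≠ 0 → y a = y b) →
        ∑ y, w y * f y = 0 := by
  classical
  have hc : 0 < Fintype.card H := by omega
  obtain ⟨c⟩ := Fintype.card_pos_iff.1 hc
  obtain ⟨W, hW1, hW2⟩ := exists_good (F := F) (ι := ι) c D hD
  refine ⟨W, hW1, ?_⟩
  intro T hT a ha b hb hab f hf1 hf2
  have h1 : ∑ y, W y * f y = ∑ z : T → H, marg W T (ext0 c T z) * f (ext0 c T z) := by
    have h2 : ∀ y, W y * f y = ∑ z : T → H,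
        (if ∀ i ∈ T, y i = ext0 c T z i then W y else 0) * f (ext0 c T z) := by
      intro y
      rw [Finset.sum_eq_single (fun i : T => y i)]
      · rw [if_pos, hf1 y (ext0 c T fun i => y i)]
        · intro i hi
          exact (ext0_mem c T (fun i => y i) ⟨i, hi⟩).symm
        · intro i hi
          exact (ext0_mem c T (fun i => y i) ⟨i, hi⟩).symm
      · intro z _ hz
        rw [if_neg, zero_mul]
        intro h
        apply hz
        funext i
        rw [h i i.2, ext0_mem]
      · simp
    simp only [h2]
    rw [Finset.sum_comm]
    refine Finset.sum_congr rfl fun z _ => ?_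
    rw [← Finset.sum_mul]
    rfl
  rw [h1]
  refine Finset.sum_eq_zero fun z _ => ?_
  by_cases h2 : marg W T (ext0 c T z) = 0
  · rw [h2, zero_mul]
  · have h3 := hW2 T hT _ h2
    have h4 : f (ext0 c T z) = 0 := by
      by_contra h5
      exact hab (h3 ha hb (hf2 _ h5))
    rw [h4, mul_zero]

end Pool.Agent.H74.Des
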