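import Pool.Agent.H74.Des.Split

/-!
Designs for the pigeonhole principle over every commutative ring: the extension lemma.
-/

namespace Pool.Agent.H74.Des

open Function

variable {F H : Type*} [CommRing F] [Fintype H] [DecidableEq H]

/-- If the marginals of `M` live on injective maps into `A`, then `M` can be corrected by a measure
with vanishing marginals so that it lives on injective maps into `A`. -/
theorem extend_fin : ∀ (t : ℕ) (A : Finset H) (M : (Fin t → H) → F), 2 * t ≤ A.card + 1 →
    MargLives A M → ∃ N : (Fin t → H) → F, MargZero N ∧ Lives A fun x => M x + N x := by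
  intro t
  induction t with
  | zero =>
    intro A M _ _
    exact ⟨0, fun i => i.elim0, fun x _ => ⟨fun a => a.elim0, fun j => j.elim0⟩⟩
  | succ t ih =>
    intro A M hA hM
    obtain ⟨c, hc⟩ : A.Nonempty := Finset.card_pos.1 (by omega)
    have hcons : ∀ (h : H) (y : Fin t → H) (j : Fin t) (v : H),
        (Fin.cons h (update y j v) : Fin (t + 1) → H) = update (Fin.cons h y) j.succ v := by
      intro h y j v
      exact Fin.cons_update ..
    have hex : ∀ h : H, ∃ N : (Fin t → H) → F, MargZero N ∧
        (h ∈ A → Lives (A.erase h) fun y => M (Fin.cons h y) + N y) ∧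
        (h ∉ A → ∀ y, M (Fin.cons h y) + N y = 0) := by
      intro h
      by_cases hh : h ∈ A
      · obtain ⟨N, h1, h2⟩ := ih (A.erase h) (fun y => M (Fin.cons h y))
          (by rw [Finset.card_erase_of_mem hh]; omega) (by
            intro j y hy
            simp only [hcons] at hy
            obtain ⟨h3, h4⟩ := hM j.succ (Fin.cons h y) hy
            refine ⟨?_, ?_⟩
            · intro a b ha hb hab
              have := h3 a.succ b.succ (fun e => ha (Fin.succ_injective _ e))
                (fun e => hb (Fin.succ_injective _ e)) (by simpa using hab)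
              exact Fin.succ_injective _ this
            · intro a ha
              rw [Finset.mem_erase]
              refine ⟨?_, by simpa using h4 a.succ (fun e => ha (Fin.succ_injective _ e))⟩
              intro e
              have := h3 a.succ 0 (fun e => ha (Fin.succ_injective _ e))
                (fun e => Fin.succ_ne_zero j e.symm) (by simpa using e)
              exact Fin.succ_ne_zero a this)
        exact ⟨N, h1, fun _ => h2, fun h' => absurd hh h'⟩
      · refine ⟨fun y => - M (Fin.cons h y), ?_, fun h' => absurd h' hh, fun _ y => by ring⟩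
        intro j y
        rw [Finset.sum_neg_distrib, neg_eq_zero]
        simp only [hcons]
        by_contra hcon
        have := (hM j.succ (Fin.cons h y) hcon).2 0 (fun e => Fin.succ_ne_zero j e.symm)
        exact hh (by simpa using this)
    choose N hN1 hN2 hN3 using hex
    have hRZ : MargZero fun y => ∑ h, N h y := MargZero.sum _ _ fun h _ => hN1 h
    have hRL : Lives A fun y => ∑ h, N h y := by
      intro y hy
      have h1 : ∑ h, N h y = ∑ h, (M (Fin.cons h y) + N h y) - ∑ h, M (Fin.cons h y) := by
        rw [← Finset.sum_sub_distrib]
        exact Finset.sum_congr rfl fun h _ => by ring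
      by_cases h2 : ∑ h, M (Fin.cons h y : Fin (t + 1) → H) = 0
      · have h3 : ∑ h, (M (Fin.cons h y) + N h y) ≠ 0 := by
          intro h3
          apply hy
          simp only [h1, h2, h3, sub_self]
        obtain ⟨h, _, h4⟩ := Finset.exists_ne_zero_of_sum_ne_zero h3
        by_cases hh : h ∈ A
        · obtain ⟨h5, h6⟩ := hN2 h hh y h4
          exact ⟨h5, fun j => Finset.mem_of_mem_erase (h6 j)⟩
        · exact absurd (hN3 h hh y) h4
      · have h3 : ∑ h, M (update (Fin.cons c y : Fin (t + 1) → H) 0 h) ≠ 0 := by
          simpa [Fin.update_cons_zero] using h2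
        obtain ⟨h4, h5⟩ := hM 0 (Fin.cons c y) h3
        refine ⟨?_, fun j => by simpa using h5 j.succ (Fin.succ_ne_zero j)⟩
        intro a b hab
        exact Fin.succ_injective _ (h4 a.succ b.succ (Fin.succ_ne_zero a) (Fin.succ_ne_zero b)
          (by simpa using hab))
    obtain ⟨S, hS1, hS2, hS3, hS4⟩ := split t A _ (by omega) hRL hRZ
    refine ⟨fun x => N (x 0) (Fin.tail x) - S (x 0) (Fin.tail x), ?_, ?_⟩
    · intro i x
      refine Fin.cases ?_ (fun j => ?_) i
      · have h1 : ∀ h, Fin.tail (update x 0 h) = Fin.tail x := fun h => Fin.tail_update_zero _ _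
        simp only [h1, update_self]
        rw [Finset.sum_sub_distrib, hS4, sub_self]
      · have h1 : ∀ h, Fin.tail (update x j.succ h) = update (Fin.tail x) j h :=
          fun h => Fin.tail_update_succ _ _ _
        have h2 : ∀ h, update x j.succ h 0 = x 0 := fun h =>
          update_of_ne (fun e => Fin.succ_ne_zero j e.symm) _ _
        simp only [h1, h2]
        rw [Finset.sum_sub_distrib, hN1 (x 0) j, hS3 (x 0) j, sub_self]
    · intro x hx
      have hx0 : M x = M (Fin.cons (x 0) (Fin.tail x)) := by rw [Fin.cons_self_tail]
      have main : x 0 ∈ A ∧ Injective (Fin.tail x) ∧ ∀ j, Fin.tail x j ∈ A.erase (x 0) := by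
        by_cases h1 : M (Fin.cons (x 0) (Fin.tail x)) + N (x 0) (Fin.tail x) = 0
        · have h2 : S (x 0) (Fin.tail x) ≠ 0 := by
            intro h2
            apply hx
            show M x + (N (x 0) (Fin.tail x) - S (x 0) (Fin.tail x)) = 0
            rw [hx0]
            linear_combination h1 - h2
          have h3 : x 0 ∈ A := by
            by_contra hcon
            apply h2
            rw [hS1 _ hcon]
            rfl
          exact ⟨h3, hS2 _ _ h2⟩
        · have h3 : x 0 ∈ A := by
            by_contra hcon
            exact h1 (hN3 _ hcon _)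
          exact ⟨h3, hN2 _ h3 _ h1⟩
      obtain ⟨h1, h2, h3⟩ := main
      have h3' : ∀ j : Fin t, x j.succ ≠ x 0 ∧ x j.succ ∈ A := fun j =>
        Finset.mem_erase.1 (h3 j)
      refine ⟨?_, fun j => Fin.cases h1 (fun j => (h3' j).2) j⟩
      intro a
      refine Fin.cases ?_ (fun a => ?_) a
      · intro b
        refine Fin.cases ?_ (fun b => ?_) b
        · intro _
          rfl
        · intro e
          exact absurd e.symm (h3' b).1
      · intro b
        refine Fin.cases ?_ (fun b => ?_) b
        · intro e
          exact absurd e (h3' a).1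
        · intro e
          rw [h2 (show Fin.tail x a = Fin.tail x b from e)]

/-- The extension lemma for a general finite index type. -/
theorem extend {ι : Type*} [Fintype ι] [DecidableEq ι] (A : Finset H) (M : (ι → H) → F)
    (hA : 2 * Fintype.card ι ≤ A.card + 1) (hM : MargLives A M) :
    ∃ N : (ι → H) → F, MargZero N ∧ Lives A fun x => M x + N x := by
  let e := Fintype.equivFin ι
  obtain ⟨N, h1, h2⟩ := extend_fin (Fintype.card ι) A (fun x => M (x ∘ e)) hA (by
    intro i x hx
    have h3 : ∀ h, update x i h ∘ e = update (x ∘ e) (e.symm i) h := fun h =>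
      update_comp_equiv x e i h
    simp only [h3] at hx
    obtain ⟨h4, h5⟩ := hM (e.symm i) (x ∘ e) hx
    refine ⟨?_, ?_⟩
    · intro a b ha hb hab
      have := h4 (e.symm a) (e.symm b) (fun e' => ha (e.symm.injective e'))
        (fun e' => hb (e.symm.injective e')) (by simpa using hab)
      exact e.symm.injective this
    · intro a ha
      simpa using h5 (e.symm a) (fun e' => ha (e.symm.injective e')))
  refine ⟨fun x => N (x ∘ e.symm), ?_, ?_⟩
  · intro i x
    have h3 : ∀ h, update x i h ∘ e.symm = update (x ∘ e.symm) (e i) h := fun h =>
      update_comp_equiv x e.symm i h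
    simp only [h3]
    exact h1 _ _
  · intro x hx
    have h3 := h2 (x ∘ e.symm) (by
      have : (x ∘ e.symm) ∘ e = x := by
        funext j
        simp
      simpa [this] using hx)
    refine ⟨?_, fun j => by simpa using h3.2 (e j)⟩
    intro a b hab
    apply e.injective
    apply h3.1
    simpa using hab

end Pool.Agent.H74.Des
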