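import Mathlib

/-!
Designs for the pigeonhole principle over every commutative ring: splitting lemmas for signed
measures on injective maps.
-/

namespace Pool.Agent.H74.Des

open Function

variable {F H : Type*} [CommRing F] [Fintype H] [DecidableEq H]

/-- All marginals obtained by summing out one coordinate vanish. -/
def MargZero {ι : Type*} [DecidableEq ι] (M : (ι → H) → F) : Prop :=
  ∀ (i : ι) (x : ι → H), ∑ h, M (update x i h) = 0

/-- The measure `M` lives on the injective maps into `A`. -/
def Lives (A : Finset H) {ι : Type*} (M : (ι → H) → F) : Prop :=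
  ∀ x, M x ≠ 0 → Injective x ∧ ∀ j, x j ∈ A

/-- The marginals obtained by summing out one coordinate live on the injective maps into `A`. -/
def MargLives (A : Finset H) {ι : Type*} [DecidableEq ι] (M : (ι → H) → F) : Prop :=
  ∀ (i : ι) (x : ι → H), ∑ h, M (update x i h) ≠ 0 →
    (∀ j k, j ≠ i → k ≠ i → x j = x k → j = k) ∧ ∀ j, j ≠ i → x j ∈ A

omit [DecidableEq H] in
theorem MargZero.sum {ι κ : Type*} [DecidableEq ι] (s : Finset κ) (M : κ → (ι → H) → F)
    (h : ∀ k ∈ s, MargZero (M k)) : MargZero fun x => ∑ k ∈ s, M k x := by
  intro i x
  rw [Finset.sum_comm]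
  exact Finset.sum_eq_zero fun k hk => h k hk i x

omit [Fintype H] [DecidableEq H] in
theorem Lives.sum {ι κ : Type*} (A : Finset H) (s : Finset κ) (M : κ → (ι → H) → F)
    (h : ∀ k ∈ s, Lives A (M k)) : Lives A fun x => ∑ k ∈ s, M k x := by
  intro x hx
  obtain ⟨k, hk, hk'⟩ := Finset.exists_ne_zero_of_sum_ne_zero hx
  exact h k hk x hk'

/-- A measure on the injective maps into `A` with vanishing marginals is a sum of such measures
which avoid one more value each. -/
theorem split : ∀ (t : ℕ) (A : Finset H) (R : (Fin t → H) → F), 2 * t + 1 ≤ A.card →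
    Lives A R → MargZero R → ∃ S : H → (Fin t → H) → F, (∀ h, h ∉ A → S h = 0) ∧
      (∀ h, Lives (A.erase h) (S h)) ∧ (∀ h, MargZero (S h)) ∧ ∀ x, ∑ h, S h x = R x := by
  intro t
  induction t with
  | zero =>
    intro A R hA hR hZ
    obtain ⟨h0, hh0⟩ : A.Nonempty := Finset.card_pos.1 (by omega)
    refine ⟨fun h => if h = h0 then R else 0, ?_, ?_, ?_, ?_⟩
    · intro h hh
      have : h ≠ h0 := fun e => hh (e ▸ hh0)
      simp [this]
    · intro h x _
      exact ⟨fun a => a.elim0, fun j => j.elim0⟩
    · intro h i
      exact i.elim0
    · intro x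
      rw [Finset.sum_eq_single h0]
      · simp
      · intro b _ hb
        simp [hb]
      · simp
  | succ t ih =>
    intro A R hA hR hZ
    obtain ⟨h0, hh0⟩ : A.Nonempty := Finset.card_pos.1 (by omega)
    set A' := A.erase h0 with hA'
    have hcA' : A'.card = A.card - 1 := Finset.card_erase_of_mem hh0
    -- the slices
    have hRi : ∀ i : Fin (t + 1), Lives A' (fun y : Fin t → H => R (i.insertNth h0 y)) := by
      intro i y hy
      obtain ⟨h1, h2⟩ := hR _ hy
      refine ⟨?_, ?_⟩
      · intro a b hab
        have : i.succAbove a = i.succAbove b := by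
          apply h1
          simpa using hab
        exact Fin.succAbove_right_injective this
      · intro j
        rw [hA', Finset.mem_erase]
        refine ⟨?_, ?_⟩
        · intro e
          have : i.succAbove j = i := by
            apply h1
            simpa using e
          exact Fin.succAbove_ne i j this
        · have := h2 (i.succAbove j)
          simpa using this
    have hZi : ∀ i : Fin (t + 1), MargZero (fun y : Fin t → H => R (i.insertNth h0 y)) := by
      intro i j y
      have := hZ (i.succAbove j) (i.insertNth h0 y)
      rw [← this]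
      refine Finset.sum_congr rfl fun h _ => ?_
      show R (i.insertNth h0 (update y j h)) = _
      rw [Fin.insertNth_update]
    choose S1 hS1a hS1b hS1c hS1d using fun i => ih A' _ (by omega) (hRi i) (hZi i)
    have hex : ∀ (i : Fin (t + 1)) (h : H), ∃ S : H → (Fin t → H) → F,
        (∀ h', h' ∉ A'.erase h → S h' = 0) ∧ (∀ h', Lives ((A'.erase h).erase h') (S h')) ∧
        (∀ h', MargZero (S h')) ∧ (∀ x, ∑ h', S h' x = S1 i h x) ∧ (h ∉ A' → S = 0) := by
      intro i h
      by_cases hh : h ∈ A'
      · obtain ⟨S, e1, e2, e3, e4⟩ := ih (A'.erase h) (S1 i h)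
          (by rw [Finset.card_erase_of_mem hh]; omega) (hS1b i h) (hS1c i h)
        exact ⟨S, e1, e2, e3, e4, fun h' => absurd hh h'⟩
      · refine ⟨0, fun _ _ => rfl, fun h' x hx => absurd rfl hx, fun h' j x => by simp, ?_,
          fun _ => rfl⟩
        intro x
        rw [hS1a i h hh]
        simp
    choose S2 hS2a hS2b hS2c hS2d hS2e using hex
    set Q : Fin (t + 1) → H → H → (Fin (t + 1) → H) → F := fun i h h' x =>
      ((if x i = h0 then 1 else 0) - (if x i = h then 1 else 0)) *
        S2 i h h' (i.removeNth x) with hQ
    have hQL : ∀ i h h', Lives (A.erase h') (Q i h h') := by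
      intro i h h' x hx
      have h1 : S2 i h h' (i.removeNth x) ≠ 0 := right_ne_zero_of_mul hx
      have h2 : ((if x i = h0 then 1 else 0) - (if x i = h then 1 else 0) : F) ≠ 0 :=
        left_ne_zero_of_mul hx
      have hhA : h ∈ A' := by
        by_contra hcon
        apply h1
        rw [hS2e i h hcon]
        rfl
      have hh'A : h' ∈ A'.erase h := by
        by_contra hcon
        apply h1
        rw [hS2a i h h' hcon]
        rfl
      obtain ⟨h3, h4⟩ := hS2b i h h' _ h1
      have h5 : x i = h0 ∨ x i = h := by
        by_contra hcon
        push Not at hcon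
        apply h2
        simp [hcon.1, hcon.2]
      have h6 : ∀ j, x (i.succAbove j) ∈ (A'.erase h).erase h' := fun j => h4 j
      rw [Finset.mem_erase] at hh'A
      rw [hA', Finset.mem_erase] at hhA
      have hh0' : h' ≠ h0 := by
        have := hh'A.2
        rw [hA', Finset.mem_erase] at this
        exact this.1
      have h7 : ∀ j, x j ≠ h' ∧ x j ∈ A := by
        intro j
        rcases Fin.eq_self_or_eq_succAbove i j with rfl | ⟨j', rfl⟩
        · rcases h5 with h5 | h5
          · rw [h5]
            exact ⟨fun e => hh0' e.symm, hh0⟩
          · rw [h5]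
            exact ⟨fun e => hh'A.1 e.symm, hhA.2⟩
        · have := h6 j'
          simp only [hA', Finset.mem_erase] at this
          exact ⟨this.1, this.2.2.2⟩
      refine ⟨?_, fun j => Finset.mem_erase.2 ⟨(h7 j).1, (h7 j).2⟩⟩
      intro a b hab
      rcases Fin.eq_self_or_eq_succAbove i a with ha | ⟨a', ha⟩ <;>
        rcases Fin.eq_self_or_eq_succAbove i b with hb | ⟨b', hb⟩
      · rw [ha, hb]
      · exfalso
        have := h6 b'
        simp only [hA', Finset.mem_erase] at this
        rw [ha, hb] at hab
        rcases h5 with h5 | h5
        · exact this.2.2.1 (hab ▸ h5)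
        · exact this.2.1 (hab ▸ h5)
      · exfalso
        have := h6 a'
        simp only [hA', Finset.mem_erase] at this
        rw [ha, hb] at hab
        rcases h5 with h5 | h5
        · exact this.2.2.1 (hab.trans h5)
        · exact this.2.1 (hab.trans h5)
      · rw [ha, hb] at hab ⊢
        rw [h3 (show i.removeNth x a' = i.removeNth x b' from hab)]
    have hQZ : ∀ i h h', MargZero (Q i h h') := by
      intro i h h' j x
      rcases Fin.eq_self_or_eq_succAbove i j with rfl | ⟨j', rfl⟩
      · simp only [hQ, update_self, Fin.removeNth_update]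
        rw [← Finset.sum_mul, Finset.sum_sub_distrib]
        simp
      · have h1 : ∀ v, Q i h h' (update x (i.succAbove j') v) =
            ((if x i = h0 then 1 else 0) - (if x i = h then 1 else 0)) *
              S2 i h h' (update (i.removeNth x) j' v) := by
          intro v
          simp only [hQ]
          rw [update_of_ne (Fin.ne_succAbove i j'), Fin.removeNth_update_succAbove]
        simp only [h1]
        rw [← Finset.mul_sum, hS2c i h h' j' (i.removeNth x), mul_zero]
    set P : H → (Fin (t + 1) → H) → F := fun h' x => ∑ i, ∑ h, Q i h h' x with hP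
    have hP0 : P h0 = 0 := by
      funext x
      simp only [hP, hQ]
      refine Finset.sum_eq_zero fun i _ => Finset.sum_eq_zero fun h _ => ?_
      rw [hS2a i h h0 (by simp [hA'])]
      simp
    have hPL : ∀ h', Lives (A.erase h') (P h') := fun h' =>
      Lives.sum _ _ _ fun i _ => Lives.sum _ _ _ fun h _ => hQL i h h'
    have hPZ : ∀ h', MargZero (P h') := fun h' =>
      MargZero.sum _ _ fun i _ => MargZero.sum _ _ fun h _ => hQZ i h h'
    set R' : (Fin (t + 1) → H) → F := fun x => R x - ∑ h', P h' x with hR'
    have hR'Z : MargZero R' := by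
      intro i x
      simp only [hR']
      rw [Finset.sum_sub_distrib, hZ i x, Finset.sum_comm]
      simp [fun h' => hPZ h' i x]
    have hR'L0 : ∀ x, R' x ≠ 0 → Injective x ∧ ∀ j, x j ∈ A := by
      intro x hx
      by_cases h1 : R x = 0
      · have h2 : ∑ h', P h' x ≠ 0 := by
          intro h2
          apply hx
          simp [hR', h1, h2]
        obtain ⟨h', _, h3⟩ := Finset.exists_ne_zero_of_sum_ne_zero h2
        obtain ⟨h4, h5⟩ := hPL h' x h3
        exact ⟨h4, fun j => Finset.mem_of_mem_erase (h5 j)⟩
      · exact hR x h1
    have hR'L : Lives (A.erase h0) R' := by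
      intro x hx
      obtain ⟨hinj, hmem⟩ := hR'L0 x hx
      refine ⟨hinj, fun i0 => Finset.mem_erase.2 ⟨?_, hmem i0⟩⟩
      intro hi0
      apply hx
      have key : ∑ h', P h' x = R x := by
        simp only [hP]
        rw [Finset.sum_comm]
        rw [Finset.sum_eq_single i0]
        · rw [Finset.sum_comm]
          have h1 : ∀ h, ∑ h', Q i0 h h' x = S1 i0 h (i0.removeNth x) := by
            intro h
            by_cases hh : h ∈ A'
            · have hne : h ≠ h0 := (Finset.mem_erase.1 hh).1
              simp only [hQ]
              rw [← Finset.mul_sum, hS2d i0 h, if_pos hi0, if_neg (by rw [hi0]; exact fun e => hne e.symm)]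
              ring
            · rw [hS1a i0 h hh]
              simp only [hQ]
              rw [hS2e i0 h hh]
              simp
          simp only [h1]
          rw [hS1d i0]
          rw [← hi0, Fin.insertNth_self_removeNth]
        · intro i _ hi
          refine Finset.sum_eq_zero fun h' _ => Finset.sum_eq_zero fun h _ => ?_
          by_contra hcon
          have h1 : S2 i h h' (i.removeNth x) ≠ 0 := right_ne_zero_of_mul hcon
          obtain ⟨_, h4⟩ := hS2b i h h' _ h1
          obtain ⟨j, hj⟩ := Fin.exists_succAbove_eq (show i0 ≠ i from fun e => hi e.symm)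
          have h5 := h4 j
          have h6 : i.removeNth x j = h0 := by
            show x (i.succAbove j) = h0
            rw [hj, hi0]
          rw [h6] at h5
          simp [hA'] at h5
        · simp
      simp only [hR', key, sub_self]
    refine ⟨fun h' x => (if h' = h0 then R' x else 0) + P h' x, ?_, ?_, ?_, ?_⟩
    · intro h' hh'
      have hne : h' ≠ h0 := fun e => hh' (e ▸ hh0)
      funext x
      simp only [hne, if_false, zero_add, Pi.zero_apply]
      simp only [hP, hQ]
      refine Finset.sum_eq_zero fun i _ => Finset.sum_eq_zero fun h _ => ?_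
      rw [hS2a i h h' (fun hc => hh' (Finset.mem_of_mem_erase (Finset.mem_of_mem_erase hc)))]
      simp
    · intro h' x hx
      by_cases hh : h' = h0
      · subst hh
        simp only [if_true, hP0, Pi.zero_apply, add_zero] at hx
        exact hR'L x hx
      · simp only [hh, if_false, zero_add] at hx
        exact hPL h' x hx
    · intro h' i x
      by_cases hh : h' = h0
      · subst hh
        simp only [if_true, hP0, Pi.zero_apply, add_zero]
        exact hR'Z i x
      · simp only [hh, if_false, zero_add]
        exact hPZ h' i x
    · intro x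
      rw [Finset.sum_add_distrib]
      simp [hR']

end Pool.Agent.H74.Des
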